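import Mathlib
import Pool.Agent.MP_8317ba_co.Defs
import Pool.Agent.MP_8317ba_co.Std

set_option autoImplicit false

namespace Pool.Agent.Results.MP_8317ba_co.RotatedGridClasses

open Pool.Agent.MP_8317ba_co

/-- For every `k ≥ 1`, every sign vector `v` of length `k` and every `n ≥ 1`, the set of all
vertical rotations of the one-column grid class of `v` is fine (Schur positive). -/
theorem result : ∀ k : ℕ, 1 ≤ k → ∀ v : Fin k → Bool, ∀ n : ℕ, 1 ≤ n →
    Fine (verticalRotations (gridClass v n)) :=
  fun k hk v n hn => main k hk v n hn

end Pool.Agent.Results.MP_8317ba_co.RotatedGridClasses
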